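import Pool.Agent.PCF.OddCyc39

/-! # Balanced bipartite graphs: bicolouring of the neighbourhoods (Berge) -/

set_option autoImplicit false

open Finset

namespace PCF39

variable {V : Type*} [Fintype V] [DecidableEq V]

/-- no induced cycle of length `n ≥ 6` with `n % 4 = 2` -/
def NoCyc (G : SimpleGraph V) : Prop :=
  ∀ n : ℕ, 6 ≤ n → n % 4 = 2 → IsEmpty (SimpleGraph.cycleGraph n ↪g G)

/-- the graph of the neighbourhoods which meet `X` in two vertices -/
def gam (G : SimpleGraph V) [DecidableRel G.Adj] (X : Finset V) : SimpleGraph V where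
  Adj x y := x ≠ y ∧ ∃ b, G.neighborFinset b ∩ X = {x, y}
  symm := ⟨by
    rintro x y ⟨h, b, hb⟩
    exact ⟨h.symm, b, by rw [hb, Finset.pair_comm]⟩⟩
  loopless := ⟨fun x h => h.1 rfl⟩

/-- in a bipartite graph without induced cycles of length `2 mod 4` the graph `gam` is 2-colourable -/
theorem gam_colorable (G : SimpleGraph V) [DecidableRel G.Adj] (hG : NoCyc G) (A : Set V)
    (hA : ∀ u v, G.Adj u v → (u ∈ A ↔ v ∉ A)) (X : Finset V) (hX : ∀ x ∈ X, x ∈ A) :
    (gam G X).Colorable 2 := by
  by_contra hcon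
  obtain ⟨m, hm1, hm3, a, ham, hadj, hinj⟩ := exists_odd_cycle _ hcon
  have hb : ∀ i, i < m → ∃ b, G.neighborFinset b ∩ X = {a i, a (i + 1)} := fun i hi => (hadj i hi).2
  have : Nonempty V := ⟨a 0⟩
  choose! b hb using hb
  -- reduction of the index `i + 1` modulo `m`
  have hnext : ∀ i, i < m → ∃ i', i' < m ∧ a (i + 1) = a i' ∧ (i' = i + 1 ∨ (i' = 0 ∧ i + 1 = m)) := by
    intro i hi
    by_cases h : i + 1 < m
    · exact ⟨i + 1, h, rfl, Or.inl rfl⟩
    · have h1 : i + 1 = m := by omega
      exact ⟨0, by omega, by rw [h1, ham], Or.inr ⟨rfl, h1⟩⟩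
  have haX : ∀ i, i < m → a i ∈ X := by
    intro i hi
    have h1 : a i ∈ G.neighborFinset (b i) ∩ X := by
      rw [hb i hi]
      exact Finset.mem_insert_self _ _
    exact (Finset.mem_inter.mp h1).2
  have haA : ∀ i, i < m → a i ∈ A := fun i hi => hX _ (haX i hi)
  have hiff : ∀ i j, i < m → j < m → (G.Adj (b j) (a i) ↔ (i = j ∨ i = j + 1 ∨ (i = 0 ∧ j + 1 = m))) := by
    intro i j hi hj
    obtain ⟨j', hj', hj1, hj2⟩ := hnext j hj
    have h1 : G.Adj (b j) (a i) ↔ a i ∈ G.neighborFinset (b j) ∩ X := by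
      rw [Finset.mem_inter, SimpleGraph.mem_neighborFinset]
      exact ⟨fun h => ⟨h, haX i hi⟩, fun h => h.1⟩
    rw [h1, hb j hj, Finset.mem_insert, Finset.mem_singleton]
    constructor
    · rintro (h | h)
      · exact Or.inl (hinj i j hi hj h)
      · rw [hj1] at h
        have := hinj i j' hi hj' h
        rcases hj2 with h3 | ⟨h3, h4⟩
        · exact Or.inr (Or.inl (this.trans h3))
        · exact Or.inr (Or.inr ⟨this.trans h3, h4⟩)
    · rintro (h | h | ⟨h, h'⟩)
      · exact Or.inl (by rw [h])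
      · exact Or.inr (by rw [h])
      · refine Or.inr ?_
        rw [h, h', ham]
  have hbA : ∀ i, i < m → b i ∉ A := by
    intro i hi
    have h1 : G.Adj (b i) (a i) := (hiff i i hi hi).mpr (Or.inl rfl)
    exact (hA _ _ h1.symm).mp (haA i hi)
  have hbinj : ∀ i j, i < m → j < m → b i = b j → i = j := by
    intro i j hi hj h
    have h1 : G.Adj (b j) (a i) := by
      rw [← h]
      exact (hiff i i hi hi).mpr (Or.inl rfl)
    have h2 : G.Adj (b i) (a j) := by
      rw [h]
      exact (hiff j j hj hj).mpr (Or.inl rfl)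
    have h3 := (hiff i j hi hj).mp h1
    have h4 := (hiff j i hj hi).mp h2
    omega
  -- the induced cycle
  have hlt : ∀ u : Fin (2 * m), u.val / 2 < m := fun u => by omega
  let f : Fin (2 * m) → V := fun u => if u.val % 2 = 0 then a (u.val / 2) else b (u.val / 2)
  have hf0 : ∀ u : Fin (2 * m), u.val % 2 = 0 → f u = a (u.val / 2) := fun u hu => if_pos hu
  have hf1 : ∀ u : Fin (2 * m), u.val % 2 = 1 → f u = b (u.val / 2) := fun u hu =>
    if_neg (by omega)
  have hfA0 : ∀ u : Fin (2 * m), u.val % 2 = 0 → f u ∈ A := fun u hu => by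
    rw [hf0 u hu]
    exact haA _ (hlt u)
  have hfA1 : ∀ u : Fin (2 * m), u.val % 2 = 1 → f u ∉ A := fun u hu => by
    rw [hf1 u hu]
    exact hbA _ (hlt u)
  have hfinj : Function.Injective f := by
    intro u v huv
    rcases Nat.mod_two_eq_zero_or_one u.val with hu | hu <;>
      rcases Nat.mod_two_eq_zero_or_one v.val with hv | hv
    · rw [hf0 u hu, hf0 v hv] at huv
      have := hinj _ _ (hlt u) (hlt v) huv
      exact Fin.ext (by omega)
    · exact absurd (huv ▸ hfA0 u hu) (hfA1 v hv)
    · exact absurd (huv ▸ hfA1 u hu) (fun h => h (hfA0 v hv))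
    · rw [hf1 u hu, hf1 v hv] at huv
      have := hbinj _ _ (hlt u) (hlt v) huv
      exact Fin.ext (by omega)
  have hsub : ∀ u v : Fin (2 * m), (u - v).val = if v.val ≤ u.val then u.val - v.val
      else 2 * m + u.val - v.val := by
    intro u v
    rw [Fin.sub_def]
    have h1 := u.2
    have h2 := v.2
    split_ifs with h
    · have h3 : 2 * m - v.val + u.val = (u.val - v.val) + 2 * m := by omega
      change (2 * m - v.val + u.val) % (2 * m) = _
      rw [h3, Nat.add_mod_right]
      exact Nat.mod_eq_of_lt (by omega)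
    · have h3 : 2 * m - v.val + u.val = 2 * m + u.val - v.val := by omega
      change (2 * m - v.val + u.val) % (2 * m) = _
      rw [h3]
      exact Nat.mod_eq_of_lt (by omega)
  have hcyc : ∀ u v : Fin (2 * m), (SimpleGraph.cycleGraph (2 * m)).Adj u v ↔
      (u.val = v.val + 1 ∨ v.val = u.val + 1 ∨ (u.val = 0 ∧ v.val + 1 = 2 * m) ∨
        (v.val = 0 ∧ u.val + 1 = 2 * m)) := by
    intro u v
    rw [SimpleGraph.cycleGraph_adj', hsub u v, hsub v u]
    have h1 := u.2
    have h2 := v.2
    split_ifs <;> omega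
  have hadjf : ∀ u v : Fin (2 * m), G.Adj (f u) (f v) ↔ (SimpleGraph.cycleGraph (2 * m)).Adj u v := by
    intro u v
    rw [hcyc]
    have h1 := u.2
    have h2 := v.2
    rcases Nat.mod_two_eq_zero_or_one u.val with hu | hu <;>
      rcases Nat.mod_two_eq_zero_or_one v.val with hv | hv
    · constructor
      · intro h
        exact absurd (hfA0 v hv) ((hA _ _ h).mp (hfA0 u hu))
      · intro h
        omega
    · rw [hf0 u hu, hf1 v hv, SimpleGraph.adj_comm, hiff _ _ (hlt u) (hlt v)]
      omega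
    · rw [hf1 u hu, hf0 v hv, hiff _ _ (hlt v) (hlt u)]
      omega
    · constructor
      · intro h
        by_contra _
        exact (hfA1 u hu) ((hA _ _ h).mpr (hfA1 v hv))
      · intro h
        omega
  exact (hG (2 * m) (by omega) (by omega)).false ⟨⟨f, hfinj⟩, fun {u v} => hadjf u v⟩

end PCF39
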