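import Pool.Agent.PCF.BalFin39

/-! # Balanced bipartite graphs of even maximum degree: vertices of degree 2, 3 away from vertices of maximum degree -/

set_option autoImplicit false

open Finset

namespace PCF90

open PCF39

variable {V : Type*} [Fintype V] [DecidableEq V]

/-- `G` without the edges which meet `T` -/
def delT (G : SimpleGraph V) (T : Finset V) : SimpleGraph V where
  Adj u v := G.Adj u v ∧ u ∉ T ∧ v ∉ T
  symm := ⟨fun _ _ h => ⟨h.1.symm, h.2.2, h.2.1⟩⟩
  loopless := ⟨fun u h => G.loopless.irrefl u h.1⟩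

instance (G : SimpleGraph V) [DecidableRel G.Adj] (T : Finset V) : DecidableRel (delT G T).Adj :=
  fun u v => inferInstanceAs (Decidable (G.Adj u v ∧ u ∉ T ∧ v ∉ T))

lemma nocyc_delT (G : SimpleGraph V) (hG : NoCyc G) (T : Finset V) : NoCyc (delT G T) := by
  intro n hn hn4
  refine ⟨fun e => ?_⟩
  have hT : ∀ u, e u ∉ T := by
    intro u
    obtain ⟨m, rfl⟩ : ∃ m, n = m + 1 := ⟨n - 1, by omega⟩
    have h1 : (SimpleGraph.cycleGraph (m + 1)).Adj u (u + 1) := by
      rw [SimpleGraph.cycleGraph_adj']
      right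
      rw [add_sub_cancel_left]
      rw [Fin.val_one']
      exact Nat.mod_eq_of_lt (by omega)
    exact ((e.map_rel_iff).mpr h1).2.1
  refine (hG n hn hn4).false ⟨e.toEmbedding, fun {u v} => ?_⟩
  rw [← e.map_rel_iff]
  constructor
  · intro h
    exact ⟨h, hT u, hT v⟩
  · intro h
    exact h.1

lemma nbr_delT (G : SimpleGraph V) [DecidableRel G.Adj] (T : Finset V) (b : V) (hb : b ∉ T) :
    (delT G T).neighborFinset b = G.neighborFinset b \ T := by
  ext w
  rw [SimpleGraph.mem_neighborFinset, Finset.mem_sdiff, SimpleGraph.mem_neighborFinset]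
  exact ⟨fun h => ⟨h.1, h.2.2⟩, fun h => ⟨h.1, hb, h.2⟩⟩

/-- good colourings off a set `T` of vertices -/
lemma good_sub (G : SimpleGraph V) [DecidableRel G.Adj] (hG : NoCyc G) (A : Set V)
    (hA : ∀ u v, G.Adj u v → (u ∈ A ↔ v ∉ A)) (T : Finset V) (hT : ∀ t ∈ T, t ∈ A)
    (k : ℕ) (hk : 0 < k) :
    ∃ c : V → Fin k, ∀ b, b ∉ A →
      min k (G.neighborFinset b \ T).card ≤ ((G.neighborFinset b \ T).image c).card := by
  obtain ⟨c, hc⟩ := good (delT G T) (nocyc_delT G hG T) A (fun u v h => hA u v h.1) k hk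
  refine ⟨c, fun b hb => ?_⟩
  have h1 := hc b hb
  rw [← SimpleGraph.card_neighborFinset_eq_degree, nbr_delT G T b (fun h => hb (hT b h))] at h1
  exact h1

/-- with at most `2k-2` and at least two points off `T` and a good colouring there, some point whose
colour is not `z` has a colour of its own -/
lemma unique_ne {k : ℕ} (N : Finset V) (c : V → Fin k) (z : Fin k) (h2 : 2 ≤ N.card)
    (h3 : N.card + 2 ≤ 2 * k) (hg : min k N.card ≤ (N.image c).card) :
    ∃ u ∈ N, c u ≠ z ∧ ∀ w ∈ N, c w = c u → w = u := by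
  classical
  by_contra hcon
  push Not at hcon
  have h1 : ∀ l ∈ (N.image c).erase z, 2 ≤ (N.filter (fun w => c w = l)).card := by
    intro l hl
    rw [Finset.mem_erase, Finset.mem_image] at hl
    obtain ⟨hlz, u, hu, rfl⟩ := hl
    obtain ⟨w, hw, hwu, hne⟩ := hcon u hu hlz
    rw [← Finset.card_pair hne]
    apply Finset.card_le_card
    intro x hx
    rw [Finset.mem_insert, Finset.mem_singleton] at hx
    rw [Finset.mem_filter]
    rcases hx with rfl | rfl
    · exact ⟨hw, hwu⟩
    · exact ⟨hu, rfl⟩
  by_cases hz : z ∈ N.image c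
  · have h4 : ((N.image c).erase z).card * 2 + 1 ≤ N.card := by
      rw [Finset.card_eq_sum_card_image c N, ← Finset.sum_erase_add _ _ hz, ← smul_eq_mul]
      refine Nat.add_le_add (Finset.card_nsmul_le_sum _ _ _ h1) ?_
      rw [Finset.mem_image] at hz
      obtain ⟨u, hu, hu'⟩ := hz
      exact Finset.card_pos.mpr ⟨u, Finset.mem_filter.mpr ⟨hu, hu'⟩⟩
    rw [Finset.card_erase_of_mem hz] at h4
    have h5 : 0 < (N.image c).card := Finset.card_pos.mpr ⟨z, hz⟩
    rcases le_total k N.card with h | h
    · rw [min_eq_left h] at hg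
      omega
    · rw [min_eq_right h] at hg
      omega
  · have h4 : (N.image c).card * 2 ≤ N.card := by
      rw [Finset.erase_eq_of_notMem hz] at h1
      rw [Finset.card_eq_sum_card_image c N, ← smul_eq_mul]
      exact Finset.card_nsmul_le_sum _ _ _ h1
    rcases le_total k N.card with h | h
    · rw [min_eq_left h] at hg
      omega
    · rw [min_eq_right h] at hg
      omega

/-- **`h` colours on one side** suffice when the vertices of the other side have degree at most `2h`
and no vertex of degree `2h` has a common neighbour with a vertex of degree 2 or 3 -/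
theorem half_side (G : SimpleGraph V) [DecidableRel G.Adj] (hG : NoCyc G) (A : Set V)
    (hA : ∀ u v, G.Adj u v → (u ∈ A ↔ v ∉ A)) (h : ℕ) (hh : 2 ≤ h)
    (hd : ∀ v, v ∉ A → G.degree v ≤ 2 * h)
    (h23 : ∀ v, v ∉ A → G.degree v = 2 * h → ∀ x, G.Adj v x → ∀ w, G.Adj x w →
      G.degree w ≠ 2 ∧ G.degree w ≠ 3) :
    ∃ c : V → Fin h, ∀ b, b ∉ A → 0 < G.degree b →
      ∃ u ∈ G.neighborFinset b, ∀ w ∈ G.neighborFinset b, c w = c u → w = u := by
  classical
  obtain ⟨s, hs⟩ := good G hG A hA (2 * h) (by omega)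
  -- the vertices of two colour classes which have a neighbour of degree `2h`
  set T : Finset V := Finset.univ.filter (fun t => t ∈ A ∧ (s t).val < 2 ∧
    ∃ v, G.Adj v t ∧ G.degree v = 2 * h) with hTdef
  have hTmem : ∀ t, t ∈ T ↔ t ∈ A ∧ (s t).val < 2 ∧ ∃ v, G.Adj v t ∧ G.degree v = 2 * h := by
    intro t
    simp [hTdef]
  obtain ⟨c, hc⟩ := good_sub G hG A hA T (fun t ht => ((hTmem t).mp ht).1) h (by omega)
  have hNA : ∀ b, b ∉ A → ∀ x, x ∈ G.neighborFinset b → x ∈ A := by
    intro b hb x hx
    rw [SimpleGraph.mem_neighborFinset] at hx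
    by_contra hxA
    exact hb ((hA _ _ hx).mpr hxA)
  let z : Fin h := ⟨0, by omega⟩
  refine ⟨fun v => if v ∈ T then z else c v, fun b hb hpos => ?_⟩
  set N := G.neighborFinset b with hN
  have hcardN : N.card = G.degree b := SimpleGraph.card_neighborFinset_eq_degree ..
  have hdb := hd b hb
  -- `s` is injective on `N`
  have hsN : min (2 * h) (G.degree b) ≤ (N.image s).card := hs b hb
  have hinj : Set.InjOn s N := by
    rw [← Finset.card_image_iff]
    refine le_antisymm Finset.card_image_le ?_
    rw [hcardN]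
    rwa [min_eq_right hdb] at hsN
  have hr : G.degree b = 2 * h → (N \ T).card ≤ 2 * h - 2 := by
    intro hb2
    have h1 : (N \ T).card ≤ (Finset.Ico 2 (2 * h)).card := by
      refine Finset.card_le_card_of_injOn (fun x => (s x).val) ?_ ?_
      · intro x hx
        rw [Finset.mem_coe, Finset.mem_sdiff, hTmem] at hx
        have hxA := hNA b hb x hx.1
        have h2 := (s x).2
        change (s x).val ∈ Finset.Ico 2 (2 * h)
        rw [Finset.mem_Ico]
        refine ⟨?_, h2⟩
        by_contra hlt
        exact hx.2 ⟨hxA, Nat.lt_of_not_le hlt, b, (SimpleGraph.mem_neighborFinset ..).mp hx.1, hb2⟩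
      · intro x hx y hy hxy
        rw [Finset.mem_coe, Finset.mem_sdiff] at hx hy
        exact hinj hx.1 hy.1 (Fin.ext hxy)
    rwa [Nat.card_Ico] at h1
  have hq : (N ∩ T).card ≤ 2 := by
    have h1 : (N ∩ T).card ≤ (Finset.range 2).card := by
      refine Finset.card_le_card_of_injOn (fun x => (s x).val) ?_ ?_
      · intro x hx
        rw [Finset.mem_coe, Finset.mem_inter, hTmem] at hx
        rw [Finset.mem_coe, Finset.mem_range]
        exact hx.2.2.1
      · intro x hx y hy hxy
        rw [Finset.mem_coe, Finset.mem_inter] at hx hy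
        exact hinj hx.1 hy.1 (Fin.ext hxy)
    rwa [Finset.card_range] at h1
  have hsum : (N \ T).card + (N ∩ T).card = N.card := Finset.card_sdiff_add_card_inter N T
  rcases Finset.eq_empty_or_nonempty (N ∩ T) with hem | ⟨t, ht⟩
  · -- no neighbour in `T`
    rw [hem, Finset.card_empty] at hsum
    have hNT : N \ T = N := by
      rw [Finset.sdiff_eq_self_iff_disjoint, Finset.disjoint_iff_inter_eq_empty]
      exact hem
    have hlt : N.card < 2 * h := by
      rcases Nat.lt_or_ge N.card (2 * h) with h4 | h4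
      · exact h4
      · have := hr (by omega)
        omega
    have hcb := hc b hb
    rw [← hN, hNT] at hcb
    obtain ⟨u, hu, huniq⟩ := unique_of_good N c (by omega) hlt hcb
    have hNot : ∀ w ∈ N, w ∉ T := by
      intro w hw hwT
      have : w ∈ N ∩ T := Finset.mem_inter.mpr ⟨hw, hwT⟩
      rw [hem] at this
      exact absurd this (Finset.notMem_empty _)
    refine ⟨u, hu, fun w hw hcw => ?_⟩
    change (if w ∈ T then z else c w) = (if u ∈ T then z else c u) at hcw
    rw [if_neg (hNot u hu), if_neg (hNot w hw)] at hcw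
    exact huniq w hw hcw
  · rw [Finset.mem_inter] at ht
    obtain ⟨htA, _, v, hvt, hv2⟩ := (hTmem t).mp ht.2
    have hvA : v ∉ A := by
      intro hvA
      exact ((hA _ _ hvt).mp hvA) htA
    have h23b := h23 v hvA hv2 t hvt b ((SimpleGraph.mem_neighborFinset ..).mp ht.1).symm
    have hq1 : 0 < (N ∩ T).card := Finset.card_pos.mpr ⟨t, Finset.mem_inter.mpr ht⟩
    by_cases h1 : G.degree b = 1
    · obtain ⟨u, hu⟩ := Finset.card_eq_one.mp (hcardN.trans h1)
      refine ⟨u, by rw [hu]; exact Finset.mem_singleton_self _, fun w hw _ => ?_⟩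
      rw [hu, Finset.mem_singleton] at hw
      exact hw
    · have h5 : (N \ T).card + 2 ≤ 2 * h := by
        rcases Nat.lt_or_ge (G.degree b) (2 * h) with h4 | h4
        · omega
        · have := hr (by omega)
          omega
      obtain ⟨u, hu, huz, huniq⟩ := unique_ne (N \ T) c z (by omega) h5 (hc b hb)
      rw [Finset.mem_sdiff] at hu
      refine ⟨u, hu.1, fun w hw hcw => ?_⟩
      change (if w ∈ T then z else c w) = (if u ∈ T then z else c u) at hcw
      rw [if_neg hu.2] at hcw
      by_cases hwT : w ∈ T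
      · rw [if_pos hwT] at hcw
        exact absurd hcw.symm huz
      · rw [if_neg hwT] at hcw
        exact huniq w (Finset.mem_sdiff.mpr ⟨hw, hwT⟩) hcw

/-- **Balanced bipartite graphs, even degree.** If all degrees are at most `2h` and no vertex of degree
`2h` outside `A` has a common neighbour with a vertex of degree 2 or 3, then `2h+1` colours suffice. -/
theorem balanced_even90 (G : SimpleGraph V) [DecidableRel G.Adj] (A : Set V)
    (hA : ∀ u v, G.Adj u v → (u ∈ A ↔ v ∉ A)) (hG : NoCyc G) (h : ℕ) (hh : 2 ≤ h)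
    (hd : ∀ v, G.degree v ≤ 2 * h)
    (h23 : ∀ v, v ∉ A → G.degree v = 2 * h → ∀ x, G.Adj v x → ∀ w, G.Adj x w →
      G.degree w ≠ 2 ∧ G.degree w ≠ 3) :
    ∃ c : V → Fin (2 * h + 1), (∀ u v, G.Adj u v → c u ≠ c v) ∧
      ∀ v, 0 < G.degree v → ∃ u, G.Adj v u ∧ ∀ w, G.Adj v w → c w = c u → w = u := by
  classical
  obtain ⟨cA, hcA⟩ := half_side G hG A hA h hh (fun v _ => hd v) h23
  have hA' : ∀ u v, G.Adj u v → (u ∈ Aᶜ ↔ v ∉ Aᶜ) := by
    intro u v huv
    have := hA u v huv
    simp only [Set.mem_compl_iff, not_not]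
    tauto
  obtain ⟨cB, hcB⟩ := good G hG Aᶜ hA' (h + 1) (Nat.succ_pos _)
  let c : V → Fin (2 * h + 1) := fun v =>
    if v ∈ A then ⟨(cA v).val, by have := (cA v).2; omega⟩
    else ⟨h + (cB v).val, by have := (cB v).2; omega⟩
  have hcA' : ∀ v, v ∈ A → (c v).val = (cA v).val := by
    intro v hv
    change (if v ∈ A then (⟨(cA v).val, by have := (cA v).2; omega⟩ : Fin (2 * h + 1))
      else ⟨h + (cB v).val, by have := (cB v).2; omega⟩).val = _
    rw [if_pos hv]
  have hcB' : ∀ v, v ∉ A → (c v).val = h + (cB v).val := by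
    intro v hv
    change (if v ∈ A then (⟨(cA v).val, by have := (cA v).2; omega⟩ : Fin (2 * h + 1))
      else ⟨h + (cB v).val, by have := (cB v).2; omega⟩).val = _
    rw [if_neg hv]
  refine ⟨c, fun u v huv he => ?_, fun v hv => ?_⟩
  · have h3 := congrArg Fin.val he
    by_cases hu : u ∈ A
    · rw [hcA' u hu, hcB' v ((hA u v huv).mp hu)] at h3
      have := (cA u).2
      omega
    · have hvA : v ∈ A := by
        by_contra hvA
        exact hu ((hA u v huv).mpr hvA)
      rw [hcB' u hu, hcA' v hvA] at h3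
      have := (cA v).2
      omega
  · by_cases hvA : v ∈ A
    · have hdv := hd v
      obtain ⟨u, hu, huniq⟩ := unique_of_good (G.neighborFinset v) cB
        (by rw [SimpleGraph.card_neighborFinset_eq_degree]; exact hv)
        (by rw [SimpleGraph.card_neighborFinset_eq_degree]; omega)
        (by rw [SimpleGraph.card_neighborFinset_eq_degree]
            exact hcB v (by simpa using hvA))
      rw [SimpleGraph.mem_neighborFinset] at hu
      refine ⟨u, hu, fun w hw hcw => huniq w ((SimpleGraph.mem_neighborFinset ..).mpr hw) ?_⟩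
      have h3 := congrArg Fin.val hcw
      rw [hcB' w ((hA v w hw).mp hvA), hcB' u ((hA v u hu).mp hvA)] at h3
      exact Fin.ext (by omega)
    · have hNA : ∀ w, G.Adj v w → w ∈ A := by
        intro w hw
        by_contra hwA
        exact hvA ((hA v w hw).mpr hwA)
      obtain ⟨u, hu, huniq⟩ := hcA v hvA hv
      rw [SimpleGraph.mem_neighborFinset] at hu
      refine ⟨u, hu, fun w hw hcw => huniq w ((SimpleGraph.mem_neighborFinset ..).mpr hw) ?_⟩
      have h3 := congrArg Fin.val hcw
      rw [hcA' w (hNA w hw), hcA' u (hNA u hu)] at h3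
      exact Fin.ext h3

/-- **`Δ+1` colours**, if no vertex of degree `Δ` outside `A` has a common neighbour with a vertex of
degree 2 or 3. -/
theorem balanced_cond90 (G : SimpleGraph V) [DecidableRel G.Adj] (A : Set V)
    (hA : ∀ u v, G.Adj u v → (u ∈ A ↔ v ∉ A)) (hG : NoCyc G)
    (h23 : ∀ v, v ∉ A → G.degree v = G.maxDegree → ∀ x, G.Adj v x → ∀ w, G.Adj x w →
      G.degree w ≠ 2 ∧ G.degree w ≠ 3) :
    ∃ c : V → Fin (G.maxDegree + 1), (∀ u v, G.Adj u v → c u ≠ c v) ∧
      ∀ v, 0 < G.degree v → ∃ u, G.Adj v u ∧ ∀ w, G.Adj v w → c w = c u → w = u := by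
  have hmax : ∀ v, G.degree v ≤ G.maxDegree := fun v => G.degree_le_maxDegree v
  have hpos : ∀ u v, G.Adj u v → 0 < G.degree u := by
    intro u v huv
    rw [← SimpleGraph.card_neighborFinset_eq_degree]
    exact Finset.card_pos.mpr ⟨v, (SimpleGraph.mem_neighborFinset ..).mpr huv⟩
  rcases Nat.even_or_odd G.maxDegree with he | ho
  · obtain ⟨h, hh⟩ := he
    rcases Nat.lt_or_ge h 2 with h2 | h2
    · rcases Nat.eq_zero_or_pos h with h0 | h0
      · -- no edges
        refine ⟨fun _ => 0, fun u v huv _ => ?_, fun v hv => ?_⟩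
        · have h3 := hpos u v huv
          have := hmax u
          omega
        · have := hmax v
          omega
      · have h3 : G.maxDegree = 2 := by omega
        have h4 : ∀ v, v ∉ A → G.degree v ≤ 1 := by
          intro v hv
          have h5 := hmax v
          by_contra h6
          have h7 : G.degree v = G.maxDegree := by omega
          have h8 : 0 < (G.neighborFinset v).card := by
            rw [SimpleGraph.card_neighborFinset_eq_degree]
            omega
          obtain ⟨x, hx⟩ := Finset.card_pos.mp h8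
          rw [SimpleGraph.mem_neighborFinset] at hx
          exact (h23 v hv h7 x hx v hx.symm).1 (h7.trans h3)
        have h5 := balanced39 G A hA hG 2 1 (fun v _ => by rw [← h3]; exact hmax v) h4
        have h6 : G.maxDegree + 1 = 2 / 2 + 1 / 2 + 2 := by rw [h3]
        rw [h6]
        exact h5
    · have h3 : G.maxDegree = 2 * h := by omega
      have h4 : ∀ v, v ∉ A → G.degree v = 2 * h → ∀ x, G.Adj v x → ∀ w, G.Adj x w →
          G.degree w ≠ 2 ∧ G.degree w ≠ 3 := fun v hv hv2 => h23 v hv (hv2.trans h3.symm)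
      have h5 := balanced_even90 G A hA hG h h2 (fun v => by have := hmax v; omega) h4
      rw [h3]
      exact h5
  · obtain ⟨h, hh⟩ := ho
    have h5 := balanced39 G A hA hG G.maxDegree G.maxDegree (fun v _ => hmax v) (fun v _ => hmax v)
    have h6 : G.maxDegree + 1 = G.maxDegree / 2 + G.maxDegree / 2 + 2 := by omega
    rw [← h6] at h5
    exact h5

end PCF90
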