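import Pool.Agent.PCF.Good39

/-! # Balanced bipartite graphs: good colourings and the conflict-free colouring -/

set_option autoImplicit false

open Finset

namespace PCF39

variable {V : Type*} [Fintype V] [DecidableEq V]

/-- **Good colouring** (Berge): every neighbourhood of a vertex outside `A` has as many colours as
possible. -/
theorem good (G : SimpleGraph V) [DecidableRel G.Adj] (hG : NoCyc G) (A : Set V)
    (hA : ∀ u v, G.Adj u v → (u ∈ A ↔ v ∉ A)) (k : ℕ) (hk : 0 < k) :
    ∃ c : V → Fin k, ∀ b, b ∉ A → min k (G.degree b) ≤ ((G.neighborFinset b).image c).card := by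
  classical
  have : Nonempty (Fin k) := ⟨⟨0, hk⟩⟩
  obtain ⟨c, -, hc⟩ := Finset.exists_max_image (Finset.univ : Finset (V → Fin k))
    (fun c => ∑ b ∈ Finset.univ.filter (fun b => b ∉ A), ((G.neighborFinset b).image c).card)
    Finset.univ_nonempty
  refine ⟨c, fun b0 hb0 => ?_⟩
  by_contra hlt
  push Not at hlt
  have hlt1 : ((G.neighborFinset b0).image c).card < k := lt_of_lt_of_le hlt (min_le_left _ _)
  have hlt2 : ((G.neighborFinset b0).image c).card < (G.neighborFinset b0).card := by
    rw [SimpleGraph.card_neighborFinset_eq_degree]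
    exact lt_of_lt_of_le hlt (min_le_right _ _)
  obtain ⟨i, hi⟩ : ∃ i, i ∉ (G.neighborFinset b0).image c := by
    by_contra h
    push Not at h
    have : ((G.neighborFinset b0).image c) = Finset.univ := Finset.eq_univ_iff_forall.mpr h
    rw [this, Finset.card_univ, Fintype.card_fin] at hlt1
    exact lt_irrefl _ hlt1
  obtain ⟨x0, hx0, y0, hy0, hne, hcol⟩ := Finset.exists_ne_map_eq_of_card_lt_of_maps_to hlt2
    (fun x hx => Finset.mem_image_of_mem c hx)
  set j := c x0 with hj
  have hij : i ≠ j := by
    rintro h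
    exact hi (h ▸ Finset.mem_image_of_mem c hx0)
  set X : Finset V := Finset.univ.filter (fun x => x ∈ A ∧ (c x = i ∨ c x = j)) with hX
  have hXmem : ∀ x, x ∈ X ↔ x ∈ A ∧ (c x = i ∨ c x = j) := by
    intro x
    simp [hX]
  obtain ⟨f, hf⟩ := bicolouring G hG A hA X.card X rfl (fun x hx => ((hXmem x).mp hx).1)
  let c' : V → Fin k := fun x => if x ∈ X then (if f x = true then i else j) else c x
  have hc'X : ∀ x, x ∈ X → c' x = if f x = true then i else j := fun x hx => if_pos hx
  have hc'n : ∀ x, x ∉ X → c' x = c x := fun x hx => if_neg hx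
  have hNA : ∀ b, b ∉ A → ∀ x, x ∈ G.neighborFinset b → x ∈ A := by
    intro b hb x hx
    rw [SimpleGraph.mem_neighborFinset] at hx
    by_contra hxA
    exact hb ((hA _ _ hx).mpr hxA)
  -- the colours different from `i`, `j` are unchanged
  have hsame : ∀ b, b ∉ A → ((G.neighborFinset b).image c \ {i, j}) ⊆
      ((G.neighborFinset b).image c' \ {i, j}) := by
    intro b hb l hl
    rw [Finset.mem_sdiff, Finset.mem_image] at hl ⊢
    obtain ⟨⟨x, hx, rfl⟩, hl2⟩ := hl
    refine ⟨⟨x, hx, hc'n x ?_⟩, hl2⟩
    intro hxX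
    apply hl2
    rw [Finset.mem_insert, Finset.mem_singleton]
    exact ((hXmem x).mp hxX).2
  have hsplit : ∀ (S : Finset (Fin k)), S.card = (S \ {i, j}).card + (S ∩ {i, j}).card := by
    intro S
    have := Finset.card_sdiff_add_card_inter S {i, j}
    omega
  -- neighbourhoods meeting `X` twice
  have htwo : ∀ b, b ∉ A → 2 ≤ (G.neighborFinset b ∩ X).card →
      ((G.neighborFinset b).image c' ∩ {i, j}).card = 2 := by
    intro b _ h2
    obtain ⟨x, hx, y, hy, hxy⟩ := hf b h2
    rw [Finset.mem_inter] at hx hy
    have hsub : ({i, j} : Finset (Fin k)) ⊆ (G.neighborFinset b).image c' := by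
      intro l hl
      rw [Finset.mem_insert, Finset.mem_singleton] at hl
      rw [Finset.mem_image]
      rcases hl with rfl | rfl
      · by_cases hfx : f x = true
        · exact ⟨x, hx.1, by rw [hc'X x hx.2, if_pos hfx]⟩
        · refine ⟨y, hy.1, ?_⟩
          rw [hc'X y hy.2, if_pos]
          by_contra hfy
          rw [Bool.not_eq_true] at hfx hfy
          exact hxy (hfx.trans hfy.symm)
      · by_cases hfx : f x = true
        · refine ⟨y, hy.1, ?_⟩
          rw [hc'X y hy.2, if_neg]
          intro hfy
          exact hxy (hfx.trans hfy.symm)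
        · exact ⟨x, hx.1, by rw [hc'X x hx.2, if_neg hfx]⟩
    rw [Finset.inter_eq_right.mpr hsub, Finset.card_pair hij]
  have hle2 : ∀ S : Finset (Fin k), (S ∩ {i, j}).card ≤ 2 := by
    intro S
    refine (Finset.card_le_card Finset.inter_subset_right).trans ?_
    rw [Finset.card_pair hij]
  -- no neighbourhood loses a colour
  have hmono : ∀ b, b ∉ A →
      ((G.neighborFinset b).image c).card ≤ ((G.neighborFinset b).image c').card := by
    intro b hb
    rw [hsplit ((G.neighborFinset b).image c), hsplit ((G.neighborFinset b).image c')]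
    have h1 := Finset.card_le_card (hsame b hb)
    by_cases h2 : 2 ≤ (G.neighborFinset b ∩ X).card
    · have h3 := htwo b hb h2
      have h4 := hle2 ((G.neighborFinset b).image c)
      omega
    · -- at most one vertex of `X`
      have h3 : ((G.neighborFinset b).image c ∩ {i, j}).card ≤
          ((G.neighborFinset b).image c' ∩ {i, j}).card := by
        by_cases h4 : (G.neighborFinset b ∩ X).card = 0
        · have h5 : (G.neighborFinset b).image c ∩ {i, j} = ∅ := by
            rw [Finset.eq_empty_iff_forall_notMem]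
            intro l hl
            rw [Finset.mem_inter, Finset.mem_image, Finset.mem_insert, Finset.mem_singleton] at hl
            obtain ⟨⟨x, hx, rfl⟩, hl2⟩ := hl
            have h6 : x ∈ G.neighborFinset b ∩ X :=
              Finset.mem_inter.mpr ⟨hx, (hXmem x).mpr ⟨hNA b hb x hx, hl2⟩⟩
            rw [Finset.card_eq_zero.mp h4] at h6
            exact absurd h6 (Finset.notMem_empty _)
          rw [h5, Finset.card_empty]
          exact Nat.zero_le _
        · have h5 : (G.neighborFinset b ∩ X).card = 1 := by omega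
          obtain ⟨x, hx⟩ := Finset.card_eq_one.mp h5
          have hx1 : x ∈ G.neighborFinset b ∩ X := by
            rw [hx]
            exact Finset.mem_singleton_self _
          rw [Finset.mem_inter] at hx1
          have h6 : ((G.neighborFinset b).image c ∩ {i, j}).card ≤ 1 := by
            rw [Finset.card_le_one]
            intro l hl l' hl'
            rw [Finset.mem_inter, Finset.mem_image, Finset.mem_insert, Finset.mem_singleton]
              at hl hl'
            obtain ⟨⟨y, hy, rfl⟩, hl2⟩ := hl
            obtain ⟨⟨z, hz, rfl⟩, hl2'⟩ := hl'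
            have h7 : y ∈ G.neighborFinset b ∩ X :=
              Finset.mem_inter.mpr ⟨hy, (hXmem y).mpr ⟨hNA b hb y hy, hl2⟩⟩
            have h8 : z ∈ G.neighborFinset b ∩ X :=
              Finset.mem_inter.mpr ⟨hz, (hXmem z).mpr ⟨hNA b hb z hz, hl2'⟩⟩
            rw [hx, Finset.mem_singleton] at h7 h8
            rw [h7, h8]
          refine h6.trans (Finset.card_pos.mpr ⟨c' x, ?_⟩)
          rw [Finset.mem_inter]
          refine ⟨Finset.mem_image_of_mem c' hx1.1, ?_⟩
          rw [hc'X x hx1.2, Finset.mem_insert, Finset.mem_singleton]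
          by_cases hfx : f x = true
          · rw [if_pos hfx]
            exact Or.inl rfl
          · rw [if_neg hfx]
            exact Or.inr rfl
      omega
  -- `b0` gains a colour
  have hgain : ((G.neighborFinset b0).image c).card < ((G.neighborFinset b0).image c').card := by
    rw [hsplit ((G.neighborFinset b0).image c), hsplit ((G.neighborFinset b0).image c')]
    have h1 := Finset.card_le_card (hsame b0 hb0)
    have hx0X : x0 ∈ G.neighborFinset b0 ∩ X :=
      Finset.mem_inter.mpr ⟨hx0, (hXmem x0).mpr ⟨hNA b0 hb0 x0 hx0, Or.inr rfl⟩⟩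
    have hy0X : y0 ∈ G.neighborFinset b0 ∩ X :=
      Finset.mem_inter.mpr ⟨hy0, (hXmem y0).mpr ⟨hNA b0 hb0 y0 hy0, Or.inr hcol.symm⟩⟩
    have h2 : 2 ≤ (G.neighborFinset b0 ∩ X).card := by
      rw [← Finset.card_pair hne]
      apply Finset.card_le_card
      intro w hw
      rw [Finset.mem_insert, Finset.mem_singleton] at hw
      rcases hw with rfl | rfl
      · exact hx0X
      · exact hy0X
    have h3 := htwo b0 hb0 h2
    have h4 : ((G.neighborFinset b0).image c ∩ {i, j}).card ≤ 1 := by
      have h5 : (G.neighborFinset b0).image c ∩ {i, j} ⊆ {j} := by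
        intro l hl
        rw [Finset.mem_inter, Finset.mem_insert, Finset.mem_singleton] at hl
        rw [Finset.mem_singleton]
        rcases hl.2 with h | h
        · exact absurd (h ▸ hl.1) hi
        · exact h
      refine (Finset.card_le_card h5).trans ?_
      rw [Finset.card_singleton]
    omega
  have hsum := hc c' (Finset.mem_univ _)
  have hlt3 : ∑ b ∈ Finset.univ.filter (fun b => b ∉ A), ((G.neighborFinset b).image c).card <
      ∑ b ∈ Finset.univ.filter (fun b => b ∉ A), ((G.neighborFinset b).image c').card := by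
    refine Finset.sum_lt_sum (fun b hb => hmono b (Finset.mem_filter.mp hb).2)
      ⟨b0, Finset.mem_filter.mpr ⟨Finset.mem_univ _, hb0⟩, hgain⟩
  exact absurd hsum (not_le.mpr hlt3)

/-- in a good colouring with `k > deg b / 2` colours some colour occurs exactly once at `b` -/
lemma unique_of_good {k : ℕ} (N : Finset V) (c : V → Fin k) (hN : 0 < N.card) (h2 : N.card < 2 * k)
    (hg : min k N.card ≤ (N.image c).card) : ∃ u ∈ N, ∀ w ∈ N, c w = c u → w = u := by
  classical
  by_contra hcon
  push Not at hcon
  -- every colour occurs at least twice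
  have h1 : ∀ l ∈ N.image c, 2 ≤ (N.filter (fun w => c w = l)).card := by
    intro l hl
    rw [Finset.mem_image] at hl
    obtain ⟨u, hu, rfl⟩ := hl
    obtain ⟨w, hw, hwu, hne⟩ := hcon u hu
    rw [← Finset.card_pair hne]
    apply Finset.card_le_card
    intro z hz
    rw [Finset.mem_insert, Finset.mem_singleton] at hz
    rw [Finset.mem_filter]
    rcases hz with rfl | rfl
    · exact ⟨hw, hwu⟩
    · exact ⟨hu, rfl⟩
  have h3 : (N.image c).card * 2 ≤ N.card := by
    rw [Finset.card_eq_sum_card_image c N, ← smul_eq_mul]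
    exact Finset.card_nsmul_le_sum _ _ _ h1
  rcases le_total k N.card with h | h
  · rw [min_eq_left h] at hg
    omega
  · rw [min_eq_right h] at hg
    omega

/-- **Balanced bipartite graphs.** -/
theorem balanced39 (G : SimpleGraph V) [DecidableRel G.Adj] (A : Set V)
    (hA : ∀ u v, G.Adj u v → (u ∈ A ↔ v ∉ A)) (hG : NoCyc G) (d1 d2 : ℕ)
    (h1 : ∀ v ∈ A, G.degree v ≤ d1) (h2 : ∀ v, v ∉ A → G.degree v ≤ d2) :
    ∃ c : V → Fin (d1 / 2 + d2 / 2 + 2), (∀ u v, G.Adj u v → c u ≠ c v) ∧
      ∀ v, 0 < G.degree v → ∃ u, G.Adj v u ∧ ∀ w, G.Adj v w → c w = c u → w = u := by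
  classical
  obtain ⟨cA, hcA⟩ := good G hG A hA (d2 / 2 + 1) (Nat.succ_pos _)
  have hA' : ∀ u v, G.Adj u v → (u ∈ Aᶜ ↔ v ∉ Aᶜ) := by
    intro u v huv
    have := hA u v huv
    simp only [Set.mem_compl_iff, not_not]
    tauto
  obtain ⟨cB, hcB⟩ := good G hG Aᶜ hA' (d1 / 2 + 1) (Nat.succ_pos _)
  let c : V → Fin (d1 / 2 + d2 / 2 + 2) := fun v =>
    if v ∈ A then ⟨(cA v).val, by have := (cA v).2; omega⟩
    else ⟨(d2 / 2 + 1) + (cB v).val, by have := (cB v).2; omega⟩
  have hcA' : ∀ v, v ∈ A → (c v).val = (cA v).val := by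
    intro v hv
    change (if v ∈ A then (⟨(cA v).val, by have := (cA v).2; omega⟩ : Fin (d1 / 2 + d2 / 2 + 2))
      else ⟨(d2 / 2 + 1) + (cB v).val, by have := (cB v).2; omega⟩).val = _
    rw [if_pos hv]
  have hcB' : ∀ v, v ∉ A → (c v).val = (d2 / 2 + 1) + (cB v).val := by
    intro v hv
    change (if v ∈ A then (⟨(cA v).val, by have := (cA v).2; omega⟩ : Fin (d1 / 2 + d2 / 2 + 2))
      else ⟨(d2 / 2 + 1) + (cB v).val, by have := (cB v).2; omega⟩).val = _
    rw [if_neg hv]
  refine ⟨c, fun u v huv h => ?_, fun v hv => ?_⟩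
  · have h3 := congrArg Fin.val h
    by_cases hu : u ∈ A
    · rw [hcA' u hu, hcB' v ((hA u v huv).mp hu)] at h3
      have := (cA u).2
      omega
    · have hvA : v ∈ A := by
        by_contra hvA
        exact hu ((hA u v huv).mpr hvA)
      rw [hcB' u hu, hcA' v hvA] at h3
      have := (cA v).2
      omega
  · by_cases hvA : v ∈ A
    · have hd := h1 v hvA
      obtain ⟨u, hu, huniq⟩ := unique_of_good (G.neighborFinset v) cB
        (by rw [SimpleGraph.card_neighborFinset_eq_degree]; exact hv)
        (by rw [SimpleGraph.card_neighborFinset_eq_degree]; omega)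
        (by rw [SimpleGraph.card_neighborFinset_eq_degree]
            exact hcB v (by simpa using hvA))
      rw [SimpleGraph.mem_neighborFinset] at hu
      refine ⟨u, hu, fun w hw hcw => huniq w ((SimpleGraph.mem_neighborFinset ..).mpr hw) ?_⟩
      have h3 := congrArg Fin.val hcw
      rw [hcB' w ((hA v w hw).mp hvA), hcB' u ((hA v u hu).mp hvA)] at h3
      exact Fin.ext (by omega)
    · have hd := h2 v hvA
      have hNA : ∀ w, G.Adj v w → w ∈ A := by
        intro w hw
        by_contra hwA
        exact hvA ((hA v w hw).mpr hwA)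
      obtain ⟨u, hu, huniq⟩ := unique_of_good (G.neighborFinset v) cA
        (by rw [SimpleGraph.card_neighborFinset_eq_degree]; exact hv)
        (by rw [SimpleGraph.card_neighborFinset_eq_degree]; omega)
        (by rw [SimpleGraph.card_neighborFinset_eq_degree]
            exact hcA v hvA)
      rw [SimpleGraph.mem_neighborFinset] at hu
      refine ⟨u, hu, fun w hw hcw => huniq w ((SimpleGraph.mem_neighborFinset ..).mpr hw) ?_⟩
      have h3 := congrArg Fin.val hcw
      rw [hcA' w (hNA w hw), hcA' u (hNA u hu)] at h3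
      exact Fin.ext h3

end PCF39
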