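import Pool.Agent.PCF.Greedy39

/-! # Two special orderings -/

set_option autoImplicit false

open Finset

namespace PCF39

variable {V α : Type*} [Fintype V]

/-- orderings in which the earlier neighbours of every vertex form a clique -/
theorem greedy_clique [DecidableEq V] (G : SimpleGraph V) [DecidableRel G.Adj] (e : V → ℕ)
    (he : Function.Injective e)
    (hcl : ∀ x y z, G.Adj x y → G.Adj x z → e y < e x → e z < e x → y ≠ z → G.Adj y z)
    (L : V → Finset α) (hL : ∀ v, G.maxDegree + 1 ≤ (L v).card) :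
    ∃ c : V → α, (∀ v, c v ∈ L v) ∧ (∀ u v, G.Adj u v → c u ≠ c v) ∧
      ∀ v, (∃ y, G.Adj v y) → ∃ k, ∃! u, G.Adj v u ∧ c u = k := by
  classical
  have hmin : ∀ w, (∃ y, G.Adj w y ∧ e y < e w) → ∃ a, G.Adj w a ∧ e a < e w ∧
      ∀ y, G.Adj w y → e a ≤ e y := by
    intro w hw
    obtain ⟨y, hy, hy'⟩ := hw
    obtain ⟨z, hz, hz'⟩ := Finset.exists_min_image (G.neighborFinset w) e
      ⟨y, (SimpleGraph.mem_neighborFinset ..).mpr hy⟩
    have hz2 : ∀ y, G.Adj w y → e z ≤ e y := fun y hy =>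
      hz' y ((SimpleGraph.mem_neighborFinset ..).mpr hy)
    exact ⟨z, (SimpleGraph.mem_neighborFinset ..).mp hz, (hz2 y hy).trans_lt hy', hz2⟩
  refine greedy' G e he (fun w => if h : ∃ y, G.Adj w y ∧ e y < e w then (hmin w h).choose else w)
    ?_ ?_ L hL
  · intro w hw
    rw [dif_pos hw]
    obtain ⟨h1, h2, h3⟩ := (hmin w hw).choose_spec
    exact ⟨h1, h2, fun y hy hy' hne => hcl w y _ hy h1 hy' h2 hne⟩
  · intro x hx
    obtain ⟨a, h1, h2, h3⟩ := hmin x hx
    refine ⟨a, h1, fun w hw1 hw2 => ⟨?_, fun hw3 => ?_, fun hw3 z hz1 hz2 hz3 => ?_⟩⟩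
    · by_cases h : w = a
      · exact Or.inl h
      · exact Or.inr (hcl x a w h1 hw1 h2 hw2 (fun h' => h h'.symm))
    · rw [dif_pos hw3]
      obtain ⟨h4, h5, h6⟩ := (hmin w hw3).choose_spec
      by_cases h : (hmin w hw3).choose = a
      · exact Or.inl h
      · right
        by_cases hwa : w = a
        · rw [← hwa]
          exact h4
        · have hwa' : G.Adj w a := hcl x w a hw1 h1 hw2 h2 hwa
          have hlt : e a < e w := lt_of_le_of_ne (h3 w hw1) (fun h' => hwa (he h').symm)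
          exact hcl w a _ hwa' h4 hlt h5 (fun h' => h h'.symm)
    · by_cases hwa : w = a
      · right
        rw [← hwa]
        exact hz1
      · exfalso
        have hwa' : G.Adj w a := hcl x w a hw1 h1 hw2 h2 hwa
        have hlt : e a < e w := lt_of_le_of_ne (h3 w hw1) (fun h' => hwa (he h').symm)
        exact hw3 ⟨a, hwa', hlt⟩

/-- maximum neighbourhood orderings (of dually chordal graphs), read backwards: in the subgraph of the
vertices up to `w`, the vertex `m w` is a neighbour of `w` whose closed neighbourhood contains the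
closed neighbourhoods of all vertices of the closed neighbourhood of `w`. -/
theorem greedy_maxnbr [DecidableEq V] (G : SimpleGraph V) [DecidableRel G.Adj] (e : V → ℕ)
    (he : Function.Injective e) (m : V → V)
    (hm : ∀ w, (∃ y, G.Adj w y ∧ e y < e w) → G.Adj w (m w) ∧ e (m w) < e w ∧
      ∀ v z, (v = w ∨ G.Adj w v) → e v ≤ e w → (z = v ∨ G.Adj v z) → e z ≤ e w →
        z = m w ∨ G.Adj (m w) z)
    (L : V → Finset α) (hL : ∀ v, G.maxDegree + 1 ≤ (L v).card) :
    ∃ c : V → α, (∀ v, c v ∈ L v) ∧ (∀ u v, G.Adj u v → c u ≠ c v) ∧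
      ∀ v, (∃ y, G.Adj v y) → ∃ k, ∃! u, G.Adj v u ∧ c u = k := by
  refine greedy' G e he m ?_ ?_ L hL
  · intro w hw
    obtain ⟨h1, h2, h3⟩ := hm w hw
    refine ⟨h1, h2, fun y hy hy' hne => ?_⟩
    rcases h3 w y (Or.inl rfl) le_rfl (Or.inr hy) hy'.le with h | h
    · exact absurd h hne
    · exact h.symm
  · intro x hx
    obtain ⟨h1, h2, h3⟩ := hm x hx
    refine ⟨m x, h1, fun w hw1 hw2 => ⟨?_, fun hw3 => ?_, fun hw3 z hz1 hz2 hz3 => ?_⟩⟩
    · exact h3 w w (Or.inr hw1) hw2.le (Or.inl rfl) hw2.le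
    · obtain ⟨h4, h5, _⟩ := hm w hw3
      exact h3 w (m w) (Or.inr hw1) hw2.le (Or.inr h4) (h5.trans hw2).le
    · exact h3 w z (Or.inr hw1) hw2.le (Or.inr hz1) hz2.le

end PCF39
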