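import Pool.Agent.PCF.Bal39

/-! # Balanced bipartite graphs: bicolourings and good colourings (Berge) -/

set_option autoImplicit false

open Finset

namespace PCF39

variable {V : Type*} [Fintype V] [DecidableEq V]

/-- **Bicolouring.** -/
theorem bicolouring (G : SimpleGraph V) [DecidableRel G.Adj] (hG : NoCyc G) (A : Set V)
    (hA : ∀ u v, G.Adj u v → (u ∈ A ↔ v ∉ A)) (n : ℕ) :
    ∀ X : Finset V, X.card = n → (∀ x ∈ X, x ∈ A) → ∃ f : V → Bool, ∀ b,
      2 ≤ (G.neighborFinset b ∩ X).card →
        ∃ x ∈ G.neighborFinset b ∩ X, ∃ y ∈ G.neighborFinset b ∩ X, f x ≠ f y := by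
  classical
  induction n with
  | zero =>
    intro X hX _
    refine ⟨fun _ => true, fun b hb => ?_⟩
    rw [Finset.card_eq_zero.mp hX, Finset.inter_empty, Finset.card_empty] at hb
    omega
  | succ n ih =>
    intro X hXn hX
    obtain ⟨r, hr⟩ : X.Nonempty := by
      rw [← Finset.card_pos]
      omega
    set Γ := gam G X with hΓ
    obtain ⟨g⟩ := gam_colorable G hG A hA X hX
    have hΓX : ∀ x y, Γ.Adj x y → x ∈ X ∧ y ∈ X := by
      rintro x y ⟨_, b, hb⟩
      have h1 : x ∈ G.neighborFinset b ∩ X := by
        rw [hb]
        exact Finset.mem_insert_self _ _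
      have h2 : y ∈ G.neighborFinset b ∩ X := by
        rw [hb]
        exact Finset.mem_insert_of_mem (Finset.mem_singleton_self _)
      exact ⟨(Finset.mem_inter.mp h1).2, (Finset.mem_inter.mp h2).2⟩
    -- the farthest vertex
    obtain ⟨x, hx, hxmax⟩ := Finset.exists_max_image (X.filter (fun y => Γ.Reachable r y))
      (fun y => Γ.dist r y) ⟨r, Finset.mem_filter.mpr ⟨hr, SimpleGraph.Reachable.refl _⟩⟩
    rw [Finset.mem_filter] at hx
    obtain ⟨hxX, hxr⟩ := hx
    obtain ⟨f, hf⟩ := ih (X.erase x) (by rw [Finset.card_erase_of_mem hxX]; omega)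
      (fun y hy => hX y (Finset.mem_of_mem_erase hy))
    -- edges of `Γ` which avoid `x`
    have hedge : ∀ y z, Γ.Adj y z → y ≠ x → z ≠ x → f y ≠ f z := by
      rintro y z ⟨hyz, b, hb⟩ hyx hzx
      have h1 : G.neighborFinset b ∩ X.erase x = {y, z} := by
        rw [Finset.inter_erase, hb]
        ext w
        simp only [Finset.mem_erase, Finset.mem_insert, Finset.mem_singleton]
        constructor
        · exact fun h => h.2
        · rintro (rfl | rfl)
          · exact ⟨hyx, Or.inl rfl⟩
          · exact ⟨hzx, Or.inr rfl⟩
      have h2 := hf b (by rw [h1, Finset.card_pair hyz])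
      rw [h1] at h2
      obtain ⟨u, hu, v, hv, huv⟩ := h2
      rw [Finset.mem_insert, Finset.mem_singleton] at hu hv
      rcases hu with rfl | rfl <;> rcases hv with rfl | rfl
      · exact absurd rfl huv
      · exact huv
      · exact huv.symm
      · exact absurd rfl huv
    have hpar : ∀ k, ∀ y, Γ.Reachable r y → Γ.dist r y ≤ k → y ≠ x → r ≠ x →
        (f y = f r ↔ g y = g r) := by
      intro k
      induction k with
      | zero =>
        intro y hy hd _ _
        have h1 : r = y := by
          rw [Nat.le_zero] at hd
          exact hy.dist_eq_zero_iff.mp hd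
        subst h1
        exact ⟨fun _ => rfl, fun _ => rfl⟩
      | succ k ihk =>
        intro y hy hd hyx hrx
        by_cases hyr : y = r
        · subst hyr
          exact ⟨fun _ => rfl, fun _ => rfl⟩
        obtain ⟨p, hp⟩ := hy.exists_walk_length_eq_dist
        have hlen : p.length ≠ 0 := by
          intro h0
          exact hyr (SimpleGraph.Walk.eq_of_length_eq_zero h0).symm
        obtain ⟨l, hl⟩ := Nat.exists_eq_succ_of_ne_zero hlen
        set z := p.getVert l with hz
        have hzy : Γ.Adj z y := by
          have h1 := p.adj_getVert_succ (i := l) (by omega)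
          have h2 : p.getVert (l + 1) = y := by
            have h3 : l + 1 = p.length := by omega
            rw [h3, SimpleGraph.Walk.getVert_length]
          rw [h2] at h1
          exact h1
        have hzr : Γ.Reachable r z := ⟨p.take l⟩
        have hzd : Γ.dist r z ≤ l := by
          have h1 := SimpleGraph.dist_le (p.take l)
          rw [SimpleGraph.Walk.take_length] at h1
          exact h1.trans (min_le_left _ _)
        have hyX := (hΓX z y hzy).2
        have hdy : Γ.dist r y ≤ Γ.dist r x := hxmax y (Finset.mem_filter.mpr ⟨hyX, hy⟩)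
        have hzx : z ≠ x := by
          intro h
          rw [← h] at hdy
          omega
        have h1 := ihk z hzr (by omega) hzx hrx
        have h2 := hedge z y hzy hzx hyx
        have h3 := g.valid hzy
        -- two values in `Bool` and `Fin 2`
        constructor
        · intro h4
          have h5 : ¬ (f z = f r) := fun h => h2 (h.trans h4.symm)
          have h6 : ¬ (g z = g r) := fun h => h5 (h1.mpr h)
          have h7 : ∀ a b c : Fin 2, a ≠ b → a ≠ c → b = c := by decide
          exact h7 (g z) (g y) (g r) h3 h6
        · intro h4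
          have h6 : ¬ (g z = g r) := fun h => h3 (h.trans h4.symm)
          have h5 : ¬ (f z = f r) := fun h => h6 (h1.mp h)
          have h7 : ∀ a b c : Bool, a ≠ b → a ≠ c → b = c := by decide
          exact h7 (f z) (f y) (f r) h2 h5
    -- the value at `x`
    obtain ⟨val, hval⟩ : ∃ val : Bool, ∀ y, Γ.Adj x y → f y ≠ val := by
      by_cases hrx : r = x
      · -- `x` is isolated in `Γ`
        refine ⟨true, fun y hy => ?_⟩
        exfalso
        have hyX := (hΓX x y hy).2
        have h1 : Γ.Reachable r y := by
          rw [hrx]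
          exact hy.reachable
        have h2 := hxmax y (Finset.mem_filter.mpr ⟨hyX, h1⟩)
        rw [hrx, SimpleGraph.dist_self] at h2
        have h3 : x = y := hy.reachable.dist_eq_zero_iff.mp (Nat.le_zero.mp h2)
        exact hy.ne h3
      · refine ⟨if g x = g r then f r else !(f r), fun y hy => ?_⟩
        have hyx : y ≠ x := hy.ne'
        have hyr : Γ.Reachable r y := hxr.trans hy.reachable
        have h1 := hpar _ y hyr le_rfl hyx hrx
        have h3 := g.valid hy
        by_cases h4 : g x = g r
        · rw [if_pos h4]
          intro h5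
          exact h3 (h4.trans (h1.mp h5).symm)
        · rw [if_neg h4]
          have h7 : ∀ a b c : Fin 2, a ≠ b → a ≠ c → b = c := by decide
          have h5 : g y = g r := h7 (g x) (g y) (g r) h3 h4
          rw [h1.mpr h5]
          cases f r <;> decide
    refine ⟨Function.update f x val, fun b hb => ?_⟩
    by_cases hxb : x ∈ G.neighborFinset b ∩ X
    · have hcard : (G.neighborFinset b ∩ X.erase x).card + 1 = (G.neighborFinset b ∩ X).card := by
        rw [Finset.inter_erase, Finset.card_erase_of_mem hxb]
        have := Finset.card_pos.mpr ⟨x, hxb⟩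
        omega
      by_cases h2 : (G.neighborFinset b ∩ X.erase x).card = 1
      · obtain ⟨y, hy⟩ := Finset.card_eq_one.mp h2
        have hy1 : y ∈ G.neighborFinset b ∩ X.erase x := by
          rw [hy]
          exact Finset.mem_singleton_self _
        have hyx : y ≠ x := Finset.ne_of_mem_erase (Finset.mem_inter.mp hy1).2
        have hyX : y ∈ X := Finset.mem_of_mem_erase (Finset.mem_inter.mp hy1).2
        have hadj : Γ.Adj x y := by
          refine ⟨hyx.symm, b, ?_⟩
          rw [← Finset.insert_erase hxb, ← Finset.inter_erase, hy]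
        refine ⟨x, hxb, y, Finset.mem_inter.mpr ⟨(Finset.mem_inter.mp hy1).1, hyX⟩, ?_⟩
        rw [Function.update_self, Function.update_of_ne hyx]
        exact (hval y hadj).symm
      · obtain ⟨u, hu, v, hv, huv⟩ := hf b (by omega)
        have hu' := Finset.mem_inter.mp hu
        have hv' := Finset.mem_inter.mp hv
        refine ⟨u, Finset.mem_inter.mpr ⟨hu'.1, Finset.mem_of_mem_erase hu'.2⟩, v,
          Finset.mem_inter.mpr ⟨hv'.1, Finset.mem_of_mem_erase hv'.2⟩, ?_⟩
        rw [Function.update_of_ne (Finset.ne_of_mem_erase hu'.2),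
          Function.update_of_ne (Finset.ne_of_mem_erase hv'.2)]
        exact huv
    · have hcard : G.neighborFinset b ∩ X.erase x = G.neighborFinset b ∩ X := by
        rw [Finset.inter_erase, Finset.erase_eq_of_notMem hxb]
      obtain ⟨u, hu, v, hv, huv⟩ := hf b (by rw [hcard]; exact hb)
      have hu' := Finset.mem_inter.mp hu
      have hv' := Finset.mem_inter.mp hv
      refine ⟨u, by rw [← hcard]; exact hu, v, by rw [← hcard]; exact hv, ?_⟩
      rw [Function.update_of_ne (Finset.ne_of_mem_erase hu'.2),
        Function.update_of_ne (Finset.ne_of_mem_erase hv'.2)]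
      exact huv

end PCF39
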