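import Mathlib

/-! # Greedy proper conflict-free list colouring along an ordering

Every non isolated vertex `w` has a chosen neighbour `m w` (its witness). The vertices are coloured in
the order given by `e`; a vertex `x` avoids the colours of its earlier neighbours `w` and of their
witnesses `m w`. -/

set_option autoImplicit false

open Finset

namespace PCF39

variable {V α : Type*} [Fintype V]

/-- the vertices whose colours `x` has to avoid -/
noncomputable def forb (G : SimpleGraph V) (e : V → ℕ) (m : V → V) (x : V) : Finset V := by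
  classical exact Finset.univ.filter (fun z => e z < e x ∧
    (G.Adj x z ∨ ∃ w, G.Adj x w ∧ e w < e x ∧ z = m w))

lemma mem_forb {G : SimpleGraph V} {e : V → ℕ} {m : V → V} {x z : V} :
    z ∈ forb G e m x ↔ e z < e x ∧ (G.Adj x z ∨ ∃ w, G.Adj x w ∧ e w < e x ∧ z = m w) := by
  classical
  simp [forb]

/-- colouring with lists which are longer than the sets of forbidden vertices -/
lemma exists_col (G : SimpleGraph V) (e : V → ℕ) (he : Function.Injective e) (m : V → V)
    (L : V → Finset α) (hL : ∀ x, (forb G e m x).card < (L x).card) (k : ℕ) :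
    ∃ c : V → α, ∀ v, e v < k → c v ∈ L v ∧ ∀ z ∈ forb G e m v, c v ≠ c z := by
  classical
  induction k with
  | zero =>
    have hne : ∀ v, (L v).Nonempty := fun v => Finset.card_pos.mp (lt_of_le_of_lt (Nat.zero_le _) (hL v))
    exact ⟨fun v => (hne v).choose, fun v hv => absurd hv (Nat.not_lt_zero _)⟩
  | succ k ih =>
    obtain ⟨c, hc⟩ := ih
    by_cases hx : ∃ x, e x = k
    · obtain ⟨x, hx⟩ := hx
      have hcard : ((forb G e m x).image c).card < (L x).card :=
        lt_of_le_of_lt Finset.card_image_le (hL x)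
      obtain ⟨t, ht, ht'⟩ := Finset.exists_mem_notMem_of_card_lt_card hcard
      refine ⟨Function.update c x t, fun v hv => ?_⟩
      rcases Nat.lt_succ_iff_lt_or_eq.mp hv with h | h
      · have hvx : v ≠ x := by
          rintro rfl
          omega
        rw [Function.update_of_ne hvx]
        refine ⟨(hc v h).1, fun z hz => ?_⟩
        have hzx : z ≠ x := by
          rintro rfl
          have := (mem_forb.mp hz).1
          omega
        rw [Function.update_of_ne hzx]
        exact (hc v h).2 z hz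
      · have hvx : v = x := he (h.trans hx.symm)
        subst hvx
        rw [Function.update_self]
        refine ⟨ht, fun z hz => ?_⟩
        have hzx : z ≠ v := by
          rintro rfl
          exact lt_irrefl _ (mem_forb.mp hz).1
        rw [Function.update_of_ne hzx]
        intro h'
        exact ht' (Finset.mem_image.mpr ⟨z, hz, h'.symm⟩)
    · refine ⟨c, fun v hv => ?_⟩
      rcases Nat.lt_succ_iff_lt_or_eq.mp hv with h | h
      · exact hc v h
      · exact absurd ⟨v, h⟩ hx

/-- **Ordering theorem.** `e` is an ordering of the vertices and `m w` a neighbour of `w` such that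
every other neighbour of `w` is adjacent to `m w` or comes after both `w` and `m w`; the earlier
neighbours `w` of a vertex `x` and those of their `m w` which come before `x` all lie in the closed
neighbourhood of one neighbour `a` of `x`. Then `G` has a proper conflict-free colouring from all
lists of size `Δ + 1`. -/
theorem greedy [DecidableEq V] (G : SimpleGraph V) [DecidableRel G.Adj] (e : V → ℕ)
    (he : Function.Injective e) (m : V → V)
    (hm : ∀ w, (∃ y, G.Adj w y) → G.Adj w (m w) ∧
      ∀ y, G.Adj w y → y ≠ m w → G.Adj y (m w) ∨ (e w < e y ∧ e (m w) < e y))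
    (ha : ∀ x, (∃ w, G.Adj x w ∧ e w < e x) → ∃ a, G.Adj x a ∧ ∀ w, G.Adj x w → e w < e x →
      (w = a ∨ G.Adj a w) ∧ (e (m w) < e x → m w = a ∨ G.Adj a (m w)))
    (L : V → Finset α) (hL : ∀ v, G.maxDegree + 1 ≤ (L v).card) :
    ∃ c : V → α, (∀ v, c v ∈ L v) ∧ (∀ u v, G.Adj u v → c u ≠ c v) ∧
      ∀ v, (∃ y, G.Adj v y) → ∃ k, ∃! u, G.Adj v u ∧ c u = k := by
  classical
  have hcard : ∀ x, (forb G e m x).card < (L x).card := by
    intro x
    refine lt_of_lt_of_le (Nat.lt_succ_of_le ?_) (hL x)
    by_cases hx : ∃ w, G.Adj x w ∧ e w < e x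
    · obtain ⟨a, hxa, h⟩ := ha x hx
      have hsub : forb G e m x ⊆ (insert a (G.neighborFinset a)).erase x := by
        intro z hz
        obtain ⟨hz1, hz2⟩ := mem_forb.mp hz
        rw [Finset.mem_erase, Finset.mem_insert, SimpleGraph.mem_neighborFinset]
        refine ⟨fun h' => by rw [h'] at hz1; exact lt_irrefl _ hz1, ?_⟩
        rcases hz2 with hz2 | ⟨w, hw1, hw2, rfl⟩
        · exact (h z hz2 hz1).1
        · exact (h w hw1 hw2).2 hz1
      refine (Finset.card_le_card hsub).trans ?_
      rw [Finset.card_erase_of_mem (by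
        rw [Finset.mem_insert, SimpleGraph.mem_neighborFinset]
        exact Or.inr hxa.symm), Finset.card_insert_of_notMem (by
        rw [SimpleGraph.mem_neighborFinset]
        exact G.loopless.irrefl a), SimpleGraph.card_neighborFinset_eq_degree]
      exact (Nat.add_sub_cancel _ _).le.trans (G.degree_le_maxDegree a)
    · have h0 : forb G e m x = ∅ := by
        rw [Finset.eq_empty_iff_forall_notMem]
        intro z hz
        obtain ⟨hz1, hz2⟩ := mem_forb.mp hz
        rcases hz2 with hz2 | ⟨w, hw1, hw2, _⟩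
        · exact hx ⟨z, hz2, hz1⟩
        · exact hx ⟨w, hw1, hw2⟩
      rw [h0, Finset.card_empty]
      exact Nat.zero_le _
  obtain ⟨c, hc⟩ := exists_col G e he m L hcard (Finset.univ.sup e + 1)
  have hc' : ∀ v, c v ∈ L v ∧ ∀ z ∈ forb G e m v, c v ≠ c z := fun v =>
    hc v (Nat.lt_succ_of_le (Finset.le_sup (Finset.mem_univ v)))
  have hprop : ∀ u v, G.Adj u v → c u ≠ c v := by
    intro u v huv
    rcases lt_trichotomy (e u) (e v) with h | h | h
    · exact ((hc' v).2 u (mem_forb.mpr ⟨h, Or.inl huv.symm⟩)).symm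
    · exact absurd (he h) huv.ne
    · exact (hc' u).2 v (mem_forb.mpr ⟨h, Or.inl huv⟩)
  refine ⟨c, fun v => (hc' v).1, hprop, fun v hv => ?_⟩
  obtain ⟨h1, h2⟩ := hm v hv
  refine ⟨c (m v), m v, ⟨h1, rfl⟩, ?_⟩
  rintro y ⟨hy1, hy2⟩
  by_contra hne
  rcases h2 y hy1 hne with h3 | ⟨h3, h4⟩
  · exact hprop y (m v) h3 hy2
  · exact (hc' y).2 (m v) (mem_forb.mpr ⟨h4, Or.inr ⟨v, hy1.symm, h3, rfl⟩⟩) hy2

/-- the same, in terms of the sets of earlier neighbours: `m x` is an earlier neighbour of `x` adjacent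
to all others, for every vertex `x` which has an earlier neighbour; `a x` is a neighbour of `x` whose
closed neighbourhood contains the earlier neighbours `w` of `x` and the `m w` of those among them which
have an earlier neighbour; for the vertices `w` without earlier neighbours the first neighbour is
taken. -/
theorem greedy' [DecidableEq V] (G : SimpleGraph V) [DecidableRel G.Adj] (e : V → ℕ)
    (he : Function.Injective e) (m : V → V)
    (hm : ∀ w, (∃ y, G.Adj w y ∧ e y < e w) → G.Adj w (m w) ∧ e (m w) < e w ∧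
      ∀ y, G.Adj w y → e y < e w → y ≠ m w → G.Adj y (m w))
    (ha : ∀ x, (∃ w, G.Adj x w ∧ e w < e x) → ∃ a, G.Adj x a ∧ ∀ w, G.Adj x w → e w < e x →
      (w = a ∨ G.Adj a w) ∧ ((∃ y, G.Adj w y ∧ e y < e w) → m w = a ∨ G.Adj a (m w)) ∧
      (¬ (∃ y, G.Adj w y ∧ e y < e w) → ∀ z, G.Adj w z → e z < e x →
        (∀ y, G.Adj w y → e z ≤ e y) → z = a ∨ G.Adj a z))
    (L : V → Finset α) (hL : ∀ v, G.maxDegree + 1 ≤ (L v).card) :
    ∃ c : V → α, (∀ v, c v ∈ L v) ∧ (∀ u v, G.Adj u v → c u ≠ c v) ∧
      ∀ v, (∃ y, G.Adj v y) → ∃ k, ∃! u, G.Adj v u ∧ c u = k := by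
  classical
  have hfirst : ∀ w, (∃ y, G.Adj w y) → ∃ z, G.Adj w z ∧ ∀ y, G.Adj w y → e z ≤ e y := by
    intro w hw
    obtain ⟨y, hy⟩ := hw
    obtain ⟨z, hz, hz'⟩ := Finset.exists_min_image (G.neighborFinset w) e
      ⟨y, (SimpleGraph.mem_neighborFinset ..).mpr hy⟩
    exact ⟨z, (SimpleGraph.mem_neighborFinset ..).mp hz, fun y hy =>
      hz' y ((SimpleGraph.mem_neighborFinset ..).mpr hy)⟩
  let m' : V → V := fun w => if ∃ y, G.Adj w y ∧ e y < e w then m w else
    if h : ∃ y, G.Adj w y then (hfirst w h).choose else w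
  have hm1 : ∀ w, (∃ y, G.Adj w y ∧ e y < e w) → m' w = m w := fun w hw => if_pos hw
  have hm2 : ∀ w, ¬ (∃ y, G.Adj w y ∧ e y < e w) → (∃ y, G.Adj w y) →
      G.Adj w (m' w) ∧ ∀ y, G.Adj w y → e (m' w) ≤ e y := by
    intro w hw h
    have : m' w = (hfirst w h).choose := by
      change (if ∃ y, G.Adj w y ∧ e y < e w then m w else
        if h : ∃ y, G.Adj w y then (hfirst w h).choose else w) = _
      rw [if_neg hw, dif_pos h]
    rw [this]
    exact (hfirst w h).choose_spec
  refine greedy G e he m' ?_ ?_ L hL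
  · intro w hw
    by_cases h : ∃ y, G.Adj w y ∧ e y < e w
    · rw [hm1 w h]
      obtain ⟨h1, h2, h3⟩ := hm w h
      refine ⟨h1, fun y hy hne => ?_⟩
      rcases lt_trichotomy (e y) (e w) with h4 | h4 | h4
      · exact Or.inl (h3 y hy h4 hne)
      · exact absurd (he h4) hy.ne'
      · exact Or.inr ⟨h4, h2.trans h4⟩
    · obtain ⟨h1, h2⟩ := hm2 w h hw
      refine ⟨h1, fun y hy hne => Or.inr ⟨?_, ?_⟩⟩
      · by_contra h4
        have h5 : e y ≠ e w := fun h5 => hy.ne' (he h5)
        exact h ⟨y, hy, by omega⟩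
      · exact lt_of_le_of_ne (h2 y hy) (fun h5 => hne (he h5).symm)
  · intro x hx
    obtain ⟨a, hxa, h⟩ := ha x hx
    refine ⟨a, hxa, fun w hw1 hw2 => ⟨(h w hw1 hw2).1, fun hlt => ?_⟩⟩
    by_cases h4 : ∃ y, G.Adj w y ∧ e y < e w
    · rw [hm1 w h4]
      exact (h w hw1 hw2).2.1 h4
    · obtain ⟨h5, h6⟩ := hm2 w h4 ⟨x, hw1.symm⟩
      exact (h w hw1 hw2).2.2 h4 (m' w) h5 hlt h6

end PCF39
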