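import Mathlib

/-! # Proper conflict-free list colouring, cliques of vertices of large degree

Colour a set `X` first which induces a disjoint union of complete graphs; every vertex `w` has its first
neighbour as witness. -/

set_option autoImplicit false

open Finset

namespace PCF39

variable {V α : Type*} [Fintype V]

/-- greedy colouring, every vertex avoids the colours of a set of earlier vertices -/
lemma exists_col2 (e : V → ℕ) (he : Function.Injective e) (F : V → Finset V)
    (hF : ∀ x, ∀ z ∈ F x, e z < e x)
    (L : V → Finset α) (hL : ∀ x, (F x).card < (L x).card) (k : ℕ) :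
    ∃ c : V → α, ∀ v, e v < k → c v ∈ L v ∧ ∀ z ∈ F v, c v ≠ c z := by
  classical
  induction k with
  | zero =>
    have hne : ∀ v, (L v).Nonempty := fun v => Finset.card_pos.mp (lt_of_le_of_lt (Nat.zero_le _) (hL v))
    exact ⟨fun v => (hne v).choose, fun v hv => absurd hv (Nat.not_lt_zero _)⟩
  | succ k ih =>
    obtain ⟨c, hc⟩ := ih
    by_cases hx : ∃ x, e x = k
    · obtain ⟨x, hx⟩ := hx
      have hcard : ((F x).image c).card < (L x).card :=
        lt_of_le_of_lt Finset.card_image_le (hL x)
      obtain ⟨t, ht, ht'⟩ := Finset.exists_mem_notMem_of_card_lt_card hcard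
      refine ⟨Function.update c x t, fun v hv => ?_⟩
      rcases Nat.lt_succ_iff_lt_or_eq.mp hv with h | h
      · have hvx : v ≠ x := by
          rintro rfl
          omega
        rw [Function.update_of_ne hvx]
        refine ⟨(hc v h).1, fun z hz => ?_⟩
        have hzx : z ≠ x := by
          rintro rfl
          have := hF _ _ hz
          omega
        rw [Function.update_of_ne hzx]
        exact (hc v h).2 z hz
      · have hvx : v = x := he (h.trans hx.symm)
        subst hvx
        rw [Function.update_self]
        refine ⟨ht, fun z hz => ?_⟩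
        have hzx : z ≠ v := by
          rintro rfl
          exact lt_irrefl _ (hF _ _ hz)
        rw [Function.update_of_ne hzx]
        intro h'
        exact ht' (Finset.mem_image.mpr ⟨z, hz, h'.symm⟩)
    · refine ⟨c, fun v hv => ?_⟩
      rcases Nat.lt_succ_iff_lt_or_eq.mp hv with h | h
      · exact hc v h
      · exact absurd ⟨v, h⟩ hx

/-- **Cliques first.** If the set `X` of vertices induces a disjoint union of complete graphs, then `G`
has a proper conflict-free colouring from all lists with more than `deg v` colours for `v ∈ X` and more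
than `2 deg v` colours for `v ∉ X`. -/
theorem cliques39 {V : Type} [Fintype V] [DecidableEq V] (G : SimpleGraph V) [DecidableRel G.Adj]
    {α : Type} [DecidableEq α] (X : Set V)
    (hX : ∀ u ∈ X, ∀ v ∈ X, ∀ w ∈ X, G.Adj u v → G.Adj v w → u ≠ w → G.Adj u w)
    (L : V → Finset α) (hL1 : ∀ v ∈ X, G.degree v < (L v).card)
    (hL2 : ∀ v, v ∉ X → 2 * G.degree v < (L v).card) :
    ∃ c : V → α, (∀ v, c v ∈ L v) ∧ (∀ u v, G.Adj u v → c u ≠ c v) ∧
      ∀ v, 0 < G.degree v → ∃ k, (Finset.filter (fun w => c w = k) (G.neighborFinset v)).card = 1 := by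
  classical
  -- the order: `X` first
  let N := Fintype.card V
  let ix : V → ℕ := fun v => (Fintype.equivFin V v : ℕ)
  have hix : Function.Injective ix := fun u v h => (Fintype.equivFin V).injective (Fin.ext h)
  have hixN : ∀ v, ix v < N := fun v => (Fintype.equivFin V v).2
  let e : V → ℕ := fun v => if v ∈ X then ix v else ix v + N
  have he1 : ∀ v, v ∈ X → e v = ix v := fun v hv => if_pos hv
  have he2 : ∀ v, v ∉ X → e v = ix v + N := fun v hv => if_neg hv
  have he : Function.Injective e := by
    intro u v h
    by_cases hu : u ∈ X <;> by_cases hv : v ∈ X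
    · rw [he1 u hu, he1 v hv] at h
      exact hix h
    · rw [he1 u hu, he2 v hv] at h
      have := hixN u
      omega
    · rw [he2 u hu, he1 v hv] at h
      have := hixN v
      omega
    · rw [he2 u hu, he2 v hv] at h
      exact hix (Nat.add_right_cancel h)
  have hlate : ∀ x z, x ∈ X → e z ≤ e x → z ∈ X := by
    intro x z hx h
    by_contra hz
    rw [he1 x hx, he2 z hz] at h
    have := hixN x
    omega
  -- the first neighbour
  have hfirst : ∀ w, ∃ z, (∃ y, G.Adj w y) → G.Adj w z ∧ ∀ y, G.Adj w y → e z ≤ e y := by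
    intro w
    by_cases hw : ∃ y, G.Adj w y
    · obtain ⟨y, hy⟩ := hw
      obtain ⟨z, hz, hz'⟩ := Finset.exists_min_image (G.neighborFinset w) e
        ⟨y, (SimpleGraph.mem_neighborFinset ..).mpr hy⟩
      exact ⟨z, fun _ => ⟨(SimpleGraph.mem_neighborFinset ..).mp hz, fun y hy =>
        hz' y ((SimpleGraph.mem_neighborFinset ..).mpr hy)⟩⟩
    · exact ⟨w, fun h => absurd h hw⟩
  choose m hm using hfirst
  let F : V → Finset V := fun x =>
    ((G.neighborFinset x) ∪ (G.neighborFinset x).image m).filter (fun z => e z < e x)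
  have hFmem : ∀ x z, z ∈ F x ↔ (G.Adj x z ∨ ∃ w, G.Adj x w ∧ m w = z) ∧ e z < e x := by
    intro x z
    simp [F]
  have hcard : ∀ x, (F x).card < (L x).card := by
    intro x
    by_cases hx : x ∈ X
    · refine lt_of_le_of_lt ?_ (hL1 x hx)
      have hsub : F x ⊆ (G.neighborFinset x).filter (fun z => z ∈ X) ∪
          ((G.neighborFinset x).filter (fun z => z ∉ X)).image m := by
        intro z hz
        rw [hFmem] at hz
        obtain ⟨hz1, hz2⟩ := hz
        have hzX : z ∈ X := hlate x z hx hz2.le
        rw [Finset.mem_union, Finset.mem_filter, SimpleGraph.mem_neighborFinset, Finset.mem_image]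
        rcases hz1 with h | ⟨w, hw, rfl⟩
        · exact Or.inl ⟨h, hzX⟩
        · by_cases hwX : w ∈ X
          · left
            obtain ⟨h1, _⟩ := hm w ⟨x, hw.symm⟩
            refine ⟨hX x hx w hwX (m w) hzX hw h1 ?_, hzX⟩
            intro h'
            rw [← h'] at hz2
            exact lt_irrefl _ hz2
          · right
            exact ⟨w, by rw [Finset.mem_filter, SimpleGraph.mem_neighborFinset]; exact ⟨hw, hwX⟩, rfl⟩
      refine (Finset.card_le_card hsub).trans ((Finset.card_union_le _ _).trans ?_)
      have h1 : (((G.neighborFinset x).filter (fun z => z ∉ X)).image m).card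
          ≤ ((G.neighborFinset x).filter (fun z => z ∉ X)).card := Finset.card_image_le
      have h2 := Finset.card_filter_add_card_filter_not (s := G.neighborFinset x) (fun z => z ∈ X)
      rw [SimpleGraph.card_neighborFinset_eq_degree] at h2
      omega
    · refine lt_of_le_of_lt ?_ (hL2 x hx)
      refine (Finset.card_filter_le _ _).trans ((Finset.card_union_le _ _).trans ?_)
      have h1 : ((G.neighborFinset x).image m).card ≤ G.degree x := by
        rw [← SimpleGraph.card_neighborFinset_eq_degree]
        exact Finset.card_image_le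
      rw [SimpleGraph.card_neighborFinset_eq_degree]
      omega
  obtain ⟨c, hc⟩ := exists_col2 e he F (fun x z hz => ((hFmem x z).mp hz).2) L hcard
    (Finset.univ.sup e + 1)
  have hc' : ∀ v, c v ∈ L v ∧ ∀ z ∈ F v, c v ≠ c z := fun v =>
    hc v (Nat.lt_succ_of_le (Finset.le_sup (Finset.mem_univ v)))
  have hprop : ∀ u v, G.Adj u v → c u ≠ c v := by
    intro u v huv
    rcases lt_trichotomy (e u) (e v) with h | h | h
    · exact ((hc' v).2 u ((hFmem v u).mpr ⟨Or.inl huv.symm, h⟩)).symm
    · exact absurd (he h) huv.ne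
    · exact (hc' u).2 v ((hFmem u v).mpr ⟨Or.inl huv, h⟩)
  refine ⟨c, fun v => (hc' v).1, hprop, fun v hv => ?_⟩
  rw [← SimpleGraph.card_neighborFinset_eq_degree, Finset.card_pos] at hv
  obtain ⟨y0, hy0⟩ := hv
  obtain ⟨h1, h2⟩ := hm v ⟨y0, (SimpleGraph.mem_neighborFinset ..).mp hy0⟩
  refine ⟨c (m v), ?_⟩
  rw [Finset.card_eq_one]
  refine ⟨m v, ?_⟩
  ext y
  rw [Finset.mem_filter, SimpleGraph.mem_neighborFinset, Finset.mem_singleton]
  constructor
  · rintro ⟨hy1, hy2⟩
    by_contra hne
    have hlt : e (m v) < e y := lt_of_le_of_ne (h2 y hy1) (fun h => hne (he h).symm)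
    exact (hc' y).2 (m v) ((hFmem y (m v)).mpr ⟨Or.inr ⟨v, hy1.symm, rfl⟩, hlt⟩) hy2
  · rintro rfl
    exact ⟨h1, rfl⟩

/-- **Half degree.** If every induced path on three vertices contains a vertex of degree at most `Δ/2`,
then `G` has a proper conflict-free colouring from all lists of `Δ + 1` colours. -/
theorem half39 {V : Type} [Fintype V] [DecidableEq V] (G : SimpleGraph V) [DecidableRel G.Adj]
    {α : Type} [DecidableEq α]
    (h : ∀ u v w, G.Adj u v → G.Adj v w → u ≠ w → ¬ G.Adj u w →
      2 * G.degree u ≤ G.maxDegree ∨ 2 * G.degree v ≤ G.maxDegree ∨ 2 * G.degree w ≤ G.maxDegree)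
    (L : V → Finset α) (hL : ∀ v, G.maxDegree + 1 ≤ (L v).card) :
    ∃ c : V → α, (∀ v, c v ∈ L v) ∧ (∀ u v, G.Adj u v → c u ≠ c v) ∧
      ∀ v, 0 < G.degree v → ∃ k, (Finset.filter (fun w => c w = k) (G.neighborFinset v)).card = 1 := by
  refine cliques39 G {v | G.maxDegree < 2 * G.degree v} ?_ L ?_ ?_
  · intro u hu v hv w hw huv hvw huw
    have hu' : G.maxDegree < 2 * G.degree u := hu
    have hv' : G.maxDegree < 2 * G.degree v := hv
    have hw' : G.maxDegree < 2 * G.degree w := hw
    by_contra hn
    rcases h u v w huv hvw huw hn with h' | h' | h' <;> omega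
  · intro v _
    have := G.degree_le_maxDegree v
    have := hL v
    omega
  · intro v hv
    have hv' : ¬ G.maxDegree < 2 * G.degree v := hv
    have := hL v
    omega

end PCF39
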