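import Pool.Agent.PCF.Greedy39

/-! # The ordering theorem with local lists -/

set_option autoImplicit false

open Finset

namespace PCF39

/-- **Ordering theorem** with lists `L v` such that `deg u < |L v|` for every neighbour `u` of `v`.
`pos` is an ordering of the vertices and `m w` a neighbour of `w` such that every other neighbour of `w`
is adjacent to `m w` or comes after both `w` and `m w`; the earlier neighbours `w` of a vertex `x` and
those of their `m w` which come before `x` all lie in the closed neighbourhood of one neighbour `a` of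
`x`. -/
theorem ordering39 {V : Type} [Fintype V] [DecidableEq V] (G : SimpleGraph V) [DecidableRel G.Adj]
    {α : Type} [DecidableEq α] (L : V → Finset α) (hL1 : ∀ v, (L v).Nonempty)
    (hL2 : ∀ v u, G.Adj v u → G.degree u < (L v).card)
    (pos : V → ℕ) (he : Function.Injective pos) (m : V → V)
    (hm : ∀ w, (∃ y, G.Adj w y) → G.Adj w (m w) ∧
      ∀ y, G.Adj w y → y ≠ m w → G.Adj y (m w) ∨ (pos w < pos y ∧ pos (m w) < pos y))
    (ha : ∀ x, (∃ w, G.Adj x w ∧ pos w < pos x) → ∃ a, G.Adj x a ∧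
      ∀ w, G.Adj x w → pos w < pos x →
        (w = a ∨ G.Adj a w) ∧ (pos (m w) < pos x → m w = a ∨ G.Adj a (m w))) :
    ∃ c : V → α, (∀ v, c v ∈ L v) ∧ (∀ u v, G.Adj u v → c u ≠ c v) ∧
      ∀ v, 0 < G.degree v → ∃ k, (Finset.filter (fun w => c w = k) (G.neighborFinset v)).card = 1 := by
  classical
  have hcard : ∀ x, (forb G pos m x).card < (L x).card := by
    intro x
    by_cases hx : ∃ w, G.Adj x w ∧ pos w < pos x
    · obtain ⟨a, hxa, h⟩ := ha x hx
      refine lt_of_le_of_lt ?_ (hL2 x a hxa)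
      have hsub : forb G pos m x ⊆ (insert a (G.neighborFinset a)).erase x := by
        intro z hz
        obtain ⟨hz1, hz2⟩ := mem_forb.mp hz
        rw [Finset.mem_erase, Finset.mem_insert, SimpleGraph.mem_neighborFinset]
        refine ⟨fun h' => by rw [h'] at hz1; exact lt_irrefl _ hz1, ?_⟩
        rcases hz2 with hz2 | ⟨w, hw1, hw2, rfl⟩
        · exact (h z hz2 hz1).1
        · exact (h w hw1 hw2).2 hz1
      refine (Finset.card_le_card hsub).trans ?_
      rw [Finset.card_erase_of_mem (by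
        rw [Finset.mem_insert, SimpleGraph.mem_neighborFinset]
        exact Or.inr hxa.symm), Finset.card_insert_of_notMem (by
        rw [SimpleGraph.mem_neighborFinset]
        exact G.loopless.irrefl a), SimpleGraph.card_neighborFinset_eq_degree]
      exact (Nat.add_sub_cancel _ _).le
    · have h0 : forb G pos m x = ∅ := by
        rw [Finset.eq_empty_iff_forall_notMem]
        intro z hz
        obtain ⟨hz1, hz2⟩ := mem_forb.mp hz
        rcases hz2 with hz2 | ⟨w, hw1, hw2, _⟩
        · exact hx ⟨z, hz2, hz1⟩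
        · exact hx ⟨w, hw1, hw2⟩
      rw [h0, Finset.card_empty]
      exact Finset.card_pos.mpr (hL1 x)
  obtain ⟨c, hc⟩ := exists_col G pos he m L hcard (Finset.univ.sup pos + 1)
  have hc' : ∀ v, c v ∈ L v ∧ ∀ z ∈ forb G pos m v, c v ≠ c z := fun v =>
    hc v (Nat.lt_succ_of_le (Finset.le_sup (Finset.mem_univ v)))
  have hprop : ∀ u v, G.Adj u v → c u ≠ c v := by
    intro u v huv
    rcases lt_trichotomy (pos u) (pos v) with h | h | h
    · exact ((hc' v).2 u (mem_forb.mpr ⟨h, Or.inl huv.symm⟩)).symm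
    · exact absurd (he h) huv.ne
    · exact (hc' u).2 v (mem_forb.mpr ⟨h, Or.inl huv⟩)
  refine ⟨c, fun v => (hc' v).1, hprop, fun v hv => ?_⟩
  rw [← SimpleGraph.card_neighborFinset_eq_degree, Finset.card_pos] at hv
  obtain ⟨y0, hy0⟩ := hv
  obtain ⟨h1, h2⟩ := hm v ⟨y0, (SimpleGraph.mem_neighborFinset ..).mp hy0⟩
  refine ⟨c (m v), ?_⟩
  rw [Finset.card_eq_one]
  refine ⟨m v, ?_⟩
  ext y
  rw [Finset.mem_filter, SimpleGraph.mem_neighborFinset, Finset.mem_singleton]
  constructor
  · rintro ⟨hy1, hy2⟩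
    by_contra hne
    rcases h2 y hy1 hne with h3 | ⟨h3, h4⟩
    · exact hprop y (m v) h3 hy2
    · exact (hc' y).2 (m v) (mem_forb.mpr ⟨h4, Or.inr ⟨v, hy1.symm, h3, rfl⟩⟩) hy2
  · rintro rfl
    exact ⟨h1, rfl⟩

end PCF39
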