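import Mathlib

/-! # A graph which is not 2-colourable has an odd cycle (as a sequence of vertices) -/

set_option autoImplicit false

namespace PCF39

variable {V : Type*}

/-- there is a closed walk of length `m`, as a function -/
def CW (G : SimpleGraph V) (m : ℕ) (a : ℕ → V) : Prop :=
  a m = a 0 ∧ ∀ i, i < m → G.Adj (a i) (a (i + 1))

lemma cw_inner {G : SimpleGraph V} {m : ℕ} {a : ℕ → V} (h : CW G m a) {i j : ℕ} (hij : i < j)
    (hj : j < m) (he : a i = a j) : CW G (j - i) (fun t => a (i + t)) := by
  refine ⟨?_, fun t ht => ?_⟩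
  · change a (i + (j - i)) = a (i + 0)
    rw [Nat.add_sub_cancel' hij.le, Nat.add_zero]
    exact he.symm
  · exact h.2 (i + t) (by omega)

lemma cw_outer {G : SimpleGraph V} {m : ℕ} {a : ℕ → V} (h : CW G m a) {i j : ℕ} (hij : i < j)
    (hj : j < m) (he : a i = a j) :
    CW G (m - (j - i)) (fun t => if t ≤ i then a t else a (t + (j - i))) := by
  refine ⟨?_, fun t ht => ?_⟩
  · have h1 : ¬ (m - (j - i) ≤ i) := by omega
    have h2 : m - (j - i) + (j - i) = m := by omega
    simp only [h1, if_false, h2, Nat.zero_le, if_true]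
    exact h.1
  · by_cases h1 : t + 1 ≤ i
    · have h2 : t ≤ i := by omega
      simp only [h1, h2, if_true]
      exact h.2 t (by omega)
    · by_cases h2 : t ≤ i
      · have h3 : t = i := by omega
        subst h3
        simp only [h1, if_false, le_refl, if_true]
        have h4 := h.2 j hj
        rw [← he] at h4
        have h5 : t + 1 + (j - t) = j + 1 := by omega
        rw [h5]
        exact h4
      · simp only [h1, h2, if_false]
        have h4 := h.2 (t + (j - i)) (by omega)
        have h5 : t + 1 + (j - i) = t + (j - i) + 1 := by omega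
        rw [h5]
        exact h4

/-- a graph which is not 2-colourable contains an odd cycle -/
theorem exists_odd_cycle (G : SimpleGraph V) (h : ¬ G.Colorable 2) :
    ∃ m, m % 2 = 1 ∧ 3 ≤ m ∧ ∃ a : ℕ → V, a m = a 0 ∧ (∀ i, i < m → G.Adj (a i) (a (i + 1))) ∧
      ∀ i j, i < m → j < m → a i = a j → i = j := by
  classical
  rw [SimpleGraph.two_colorable_iff_forall_loop_even] at h
  push Not at h
  obtain ⟨u, w, hw⟩ := h
  have hex : ∃ m, m % 2 = 1 ∧ ∃ a : ℕ → V, CW G m a := by
    refine ⟨w.length, Nat.odd_iff.mp (Nat.not_even_iff_odd.mp hw), w.getVert, ?_, ?_⟩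
    · rw [SimpleGraph.Walk.getVert_length, SimpleGraph.Walk.getVert_zero]
    · intro i hi
      exact w.adj_getVert_succ hi
  obtain ⟨hm1, a, ha⟩ := Nat.find_spec hex
  have hmin := fun k (hk : k < Nat.find hex) => Nat.find_min hex hk
  set m := Nat.find hex with hm
  have hinj : ∀ i j, i < j → j < m → a i ≠ a j := by
    intro i j hij hj he
    have h1 := cw_inner ha hij hj he
    have h2 := cw_outer ha hij hj he
    rcases Nat.mod_two_eq_zero_or_one (j - i) with h3 | h3
    · exact hmin (m - (j - i)) (by omega) ⟨by omega, _, h2⟩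
    · exact hmin (j - i) (by omega) ⟨h3, _, h1⟩
  refine ⟨m, hm1, ?_, a, ha.1, ha.2, ?_⟩
  · by_contra hlt
    have h1 : m = 1 := by omega
    have h2 := ha.2 0 (by omega)
    have h3 := ha.1
    rw [h1] at h3
    rw [Nat.zero_add, h3] at h2
    exact G.loopless.irrefl _ h2
  · intro i j hi hj he
    rcases lt_trichotomy i j with h | h | h
    · exact absurd he (hinj i j h hj)
    · exact h
    · exact absurd he.symm (hinj j i h hi)

end PCF39
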